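import Pool.Agent.H.MP_5af839_lc.B

set_option autoImplicit false

namespace Pool.Agent.H.MP_5af839_lc

open Set SimpleGraph Classical

def Gle (G : SimpleGraph ℕ) (x : ℕ) : SimpleGraph ℕ :=
  G ⊓ fromRel fun u v => u < x ∧ v < x

theorem gle_adj {G : SimpleGraph ℕ} {x u v : ℕ} :
    (Gle G x).Adj u v ↔ G.Adj u v ∧ u < x ∧ v < x := by
  simp only [Gle, inf_adj, fromRel_adj]
  exact and_congr_right fun h => ⟨fun h => h.2.elim id And.symm, fun h' => ⟨h.ne, .inl h'⟩⟩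

theorem gle_mono {G : SimpleGraph ℕ} {x z u v : ℕ} (h : x ≤ z) (r : (Gle G x).Reachable u v) :
    (Gle G z).Reachable u v :=
  r.mono fun _ _ a => gle_adj.2 ((gle_adj.1 a).imp_right fun a => by omega)

theorem gle_gle {G : SimpleGraph ℕ} {x z : ℕ} (h : z ≤ x) : Gle (Gle G x) z = Gle G z := by
  ext u v
  simp only [gle_adj, and_assoc]
  exact and_congr_right fun _ => by omega

theorem gle_lt {G : SimpleGraph ℕ} {x u v : ℕ} (r : (Gle G x).Reachable u v) : u = v ∨ v < x :=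
  reach_ind (Q := fun v => u = v ∨ v < x) (.inl rfl) (fun _ _ _ a => .inr (gle_adj.1 a).2.2) r

theorem gle_ex {G : SimpleGraph ℕ} {u v : ℕ} (r : G.Reachable u v) :
    ∃ x, (Gle G x).Reachable u v :=
  reach_ind (Q := fun v => ∃ x, (Gle G x).Reachable u v) ⟨0, .rfl⟩ (fun w w' ⟨x, h⟩ a =>
    ⟨x + w + w' + 1, (gle_mono (by omega) h).trans
      (gle_adj.2 ⟨a, by omega, by omega⟩).reachable⟩) r

theorem gle_step {G : SimpleGraph ℕ} {z m w : ℕ} (h : m ≠ z) (r : (Gle G (z + 1)).Reachable m w) :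
    (Gle G z).Reachable m w ∨ ∃ y < z, G.Adj z y ∧ (Gle G z).Reachable m y := by
  refine reach_ind (Q := fun w => (Gle G z).Reachable m w ∨
    ∃ y < z, G.Adj z y ∧ (Gle G z).Reachable m y) (.inl .rfl) (fun w w' h1 a => ?_) r
  refine h1.elim (fun h1 => ?_) .inr
  obtain ⟨a1, a2, a3⟩ := gle_adj.1 a
  have := gle_lt h1
  rcases eq_or_ne w' z with rfl | e
  · exact .inr ⟨w, by omega, a1.symm, h1⟩
  · exact .inl (h1.trans (gle_adj.2 ⟨a1, by omega, by omega⟩).reachable)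

noncomputable def mn (G : SimpleGraph ℕ) (y : ℕ) : ℕ := sInf {z | G.Reachable y z}

theorem mn_reach (G : SimpleGraph ℕ) (y : ℕ) : G.Reachable y (mn G y) :=
  Nat.sInf_mem (s := {z | G.Reachable y z}) ⟨y, .rfl⟩

theorem mn_le {G : SimpleGraph ℕ} {y z : ℕ} (h : G.Reachable y z) : mn G y ≤ z := Nat.sInf_le h

def Sk (G : SimpleGraph ℕ) (m z : ℕ) : Prop := (Gle G (z + 1)).Reachable m z

noncomputable def cn (G : SimpleGraph ℕ) (m x : ℕ) : ℕ := ((Finset.range x).filter (Sk G m)).card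

theorem cn_succ (G : SimpleGraph ℕ) (m x : ℕ) :
    cn G m (x + 1) = cn G m x + if Sk G m x then 1 else 0 := by
  simp only [cn, Finset.card_filter, Finset.sum_range_succ]

theorem cn_lt {G : SimpleGraph ℕ} {m x y : ℕ} (h : Sk G m y) (l : y < x) : cn G m y < cn G m x := by
  have := cn_succ G m y
  rw [if_pos h] at this
  exact (show cn G m y < cn G m (y + 1) by omega).trans_le
    (Finset.card_le_card (Finset.filter_subset_filter _ (Finset.range_mono l)))

theorem cn_inj {G : SimpleGraph ℕ} {m x y : ℕ} (hx : Sk G m x) (hy : Sk G m y)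
    (e : cn G m x = cn G m y) : x = y := by
  rcases lt_trichotomy x y with l | l | l
  exacts [absurd e (cn_lt hx l).ne, l, absurd e (cn_lt hy l).ne']

theorem cn_ex {G : SimpleGraph ℕ} {m j : ℕ} : ∀ x, j < cn G m x → ∃ r < x, Sk G m r ∧ cn G m r = j
  | 0, h => by simp [cn] at h
  | x + 1, h => by
    rw [cn_succ] at h
    by_cases l : j < cn G m x
    · exact (cn_ex x l).imp fun r h => ⟨by omega, h.2⟩
    · split_ifs at h with s
      exacts [⟨x, by omega, s, by omega⟩, by omega]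

def Hub (A : Set ℕ) (k : ℕ) : Prop := k = 0 ∨ (k - 1).unpair.2 = 0 ∨
  ∃ n ∈ A, (k - 1).unpair.2 = Nat.pair n 0 + 1 ∧ (k - 1).unpair.1 ≤ n

noncomputable def par (A : Set ℕ) (k : ℕ) : ℕ :=
  if Hub A (k - 1).unpair.2 then (k - 1).unpair.2 else 0

theorem par_lt (A : Set ℕ) {k : ℕ} (h : 0 < k) : par A k < k := by
  have := Nat.unpair_right_le (k - 1)
  unfold par
  split_ifs <;> omega

theorem hub_iff (A : Set ℕ) (j : ℕ) : Hub A j ↔ {k | 0 < k ∧ par A k = j}.Infinite := by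
  refine ⟨fun h => (infinite_range_of_injective (f := fun i => Nat.pair i j + 1)
    fun a b e => by simpa using e).mono ?_, fun h => ?_⟩
  · rintro _ ⟨i, rfl⟩
    simp [par, h]
  · obtain ⟨k, -, rfl⟩ := h.nonempty
    unfold par
    split_ifs with h
    exacts [h, .inl rfl]

def Nb (A : Set ℕ) (j : ℕ) : Set ℕ :=
  {k | Hub A k ∧ (0 < k ∧ par A k = j ∨ 0 < j ∧ par A j = k)}

theorem nb_card (A : Set ℕ) (n : ℕ) : (∃ j, Hub A j ∧ (Nb A j).ncard = n + 2) ↔ n ∈ A := by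
  have p0 : ∀ n, par A (Nat.pair n 0 + 1) = 0 := fun n => by simp [par]
  have ch : ∀ j k, j ≠ 0 → Hub A k → 0 < k → par A k = j →
      ∃ n ∈ A, j = Nat.pair n 0 + 1 ∧ ∃ i ≤ n, Nat.pair i j + 1 = k := fun j k h0 h1 h2 h3 => by
    have e : (k - 1).unpair.2 = j := by unfold par at h3; split_ifs at h3 <;> omega
    obtain ⟨n, a1, a2, a3⟩ := (h1.resolve_left h2.ne').resolve_left (by omega)
    exact ⟨n, a1, e ▸ a2, _, a3, by rw [← e, Nat.pair_unpair]; omega⟩
  have key : ∀ n ∈ A, (Nb A (Nat.pair n 0 + 1)).ncard = n + 2 := fun n hn => by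
    rw [show Nb A (Nat.pair n 0 + 1) = insert 0 ((fun i => Nat.pair i (Nat.pair n 0 + 1) + 1) ''
      Iic n) from ?_, ncard_insert_of_notMem (by simp),
      ncard_image_of_injective _ fun a b e => by simpa using e]
    · simp
    ext k
    refine ⟨fun ⟨h1, h2⟩ => h2.symm.imp (fun h => h.2.symm.trans (p0 n)) fun h => ?_, ?_⟩
    · obtain ⟨n', -, a1, a2⟩ := ch _ k (by omega) h1 h.1 h.2
      obtain rfl : n = n' := by simpa using a1
      exact a2
    · rintro (rfl | ⟨i, hi, rfl⟩)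
      · exact ⟨.inl rfl, .inr ⟨by omega, p0 n⟩⟩
      · exact ⟨.inr (.inr ⟨n, hn, by simpa using hi⟩), .inl ⟨Nat.succ_pos _, by simp [par, Hub]⟩⟩
  refine ⟨fun ⟨j, _, h2⟩ => ?_, fun h => ⟨_, .inr (.inl (by simp)), key n h⟩⟩
  rcases eq_or_ne j 0 with rfl | h0
  · rw [((infinite_range_of_injective (f := fun i => Nat.pair i 0 + 1)
      fun a b e => by simpa using e).mono ?_).ncard] at h2
    · omega
    · rintro _ ⟨i, rfl⟩
      exact ⟨.inr (.inl (by simp)), .inl ⟨Nat.succ_pos _, p0 i⟩⟩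
  by_cases c : ∃ n ∈ A, j = Nat.pair n 0 + 1
  · obtain ⟨n', a1, rfl⟩ := c
    obtain rfl : n = n' := by have := key n' a1; omega
    exact a1
  · have := ncard_le_ncard (show Nb A j ⊆ {par A j} from fun k ⟨h1, h2⟩ => h2.elim (fun h =>
      let ⟨n, a, b, _⟩ := ch j k h0 h1 h.1 h.2; absurd ⟨n, a, b⟩ c) fun h => h.2.symm)
    simp at this
    omega

def Root (A : Set ℕ) (G : SimpleGraph ℕ) (x y : ℕ) : Prop :=
  Sk G (mn (Gle G x) y) y ∧ cn G (mn (Gle G x) y) y = par A (cn G (mn (Gle G x) y) x)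

theorem root_loc (A : Set ℕ) (G : SimpleGraph ℕ) {x y : ℕ} (h : y < x) :
    Root A (Gle G x) x y ↔ Root A G x y := by
  have : ∀ m z, z ≤ x → cn (Gle G x) m z = cn G m z := fun m z hz =>
    congrArg _ (Finset.filter_congr fun w hw => by
      rw [Sk, Sk, gle_gle (by have := Finset.mem_range.1 hw; omega)])
  rw [Root, Root, gle_gle le_rfl, this _ _ h.le, this _ _ le_rfl, Sk, Sk, gle_gle h]

theorem root_ex (A : Set ℕ) (G : SimpleGraph ℕ) {x y : ℕ} (h : y < x) :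
    ∃ r < x, Root A G x r ∧ (Gle G x).Reachable y r := by
  have h1 : mn (Gle G x) y < x := (mn_le .rfl).trans_lt h
  obtain ⟨r, a1, a2, a3⟩ := cn_ex x (par_lt A ((Nat.zero_le _).trans_lt
    (cn_lt (G := G) (m := mn (Gle G x) y) .rfl h1)))
  have a4 := (mn_reach _ y).trans (gle_mono a1 a2)
  have a5 : mn (Gle G x) r = mn (Gle G x) y := (mn_le (a4.symm.trans (mn_reach _ _))).antisymm
    (mn_le (a4.trans (mn_reach _ _)))
  exact ⟨r, a1, ⟨a5 ▸ a2, a5 ▸ a3⟩, a4⟩

def Dg (G : SimpleGraph ℕ) : Set ℕ := {n | ∃ y, {z | G.Adj y z}.Infinite ∧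
  {z | G.Adj y z ∧ {w | G.Adj z w}.Infinite}.ncard = n + 2}

theorem Dg_comap (G : SimpleGraph ℕ) (φ : ℕ ≃ ℕ) : Dg (G.comap φ) = Dg G := by
  have h : ∀ y, {z | (G.comap φ).Adj y z}.Infinite ↔ {z | G.Adj (φ y) z}.Infinite := fun y =>
    ⟨fun h f => h (f.preimage (f := φ) φ.injective.injOn), fun h => h.preimage (f := φ) (by simp)⟩
  ext n
  refine φ.exists_congr fun y => ?_
  rw [h, ← ncard_preimage_of_injective_subset_range (s := {z | G.Adj (φ y) z ∧ _}) φ.injective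
    (by simp)]
  simp only [h]
  rfl

theorem dg_eq {A : Set ℕ} {G : SimpleGraph ℕ} (hE : ∀ x y, y < x → G.Adj x y → Root A G x y)
    (hi : ∃ x, ¬Fin' G x) : Dg G = A := by
  have key : ∀ m, (∀ z, G.Reachable m z → m ≤ z) → ¬Fin' G m →
      (∀ k, ∃ x, Sk G m x ∧ cn G m x = k) ∧
      (∀ y, G.Reachable m y → ({z | G.Adj y z}.Infinite ↔ Sk G m y ∧ Hub A (cn G m y))) ∧
      ∀ y, Sk G m y → {z | G.Adj y z ∧ {w | G.Adj z w}.Infinite}.ncard =
        (Nb A (cn G m y)).ncard := by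
    intro m hm hf
    have sr : ∀ {y}, Sk G m y → G.Reachable m y := fun h => h.mono inf_le_left
    have g1 : ∀ {x y}, y < x → G.Adj x y → (Gle G x).Reachable m y →
        Sk G m y ∧ cn G m y = par A (cn G m x) ∧ 0 < cn G m x := fun {x y} l a r => by
      have : mn (Gle G x) y = m := (mn_le r.symm).antisymm
        (hm _ ((r.trans (mn_reach _ y)).mono inf_le_left))
      have h := hE x y l a
      rw [Root, this] at h
      exact ⟨h.1, h.2, (Nat.zero_le _).trans_lt (cn_lt h.1 l)⟩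
    have g2 : ∀ {x y}, Sk G m x → Sk G m y → 0 < cn G m x → par A (cn G m x) = cn G m y →
        G.Adj y x := fun {x y} hx hy h0 e => by
      obtain ⟨r, r1, r2, -⟩ := cn_ex x h0
      have ne : m ≠ x := ((hm _ (sr r2)).trans_lt r1).ne
      obtain ⟨y', a1, a2, a3⟩ := (gle_step ne hx).resolve_left fun h => by have := gle_lt h; omega
      exact cn_inj (g1 a1 a2 a3).1 hy ((g1 a1 a2 a3).2.1.trans e) ▸ a2.symm
    have g3 : {z | Sk G m z}.Infinite := fun h => by
      obtain ⟨b, hb⟩ := h.bddAbove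
      have : ∀ x, b + 1 ≤ x → ∀ w, (Gle G x).Reachable m w → (Gle G (b + 1)).Reachable m w := by
        intro x hx
        induction x, hx using Nat.le_induction with
        | base => exact fun _ => id
        | succ x hx ih =>
          have : m ≤ b := hb (show Sk G m m from .rfl)
          refine fun w r => (gle_step (by omega) r).elim (ih w) fun ⟨y, a1, a2, a3⟩ => ?_
          have : x ≤ b := hb ((gle_mono x.le_succ a3).trans
            (gle_adj.2 ⟨a2.symm, by omega, by omega⟩).reachable)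
          omega
      refine hf (((finite_Iio (b + 1)).insert m).subset fun w hw => ?_)
      obtain ⟨x, hx⟩ := gle_ex hw
      exact (gle_lt (this (x + (b + 1)) (by omega) w (gle_mono (by omega) hx))).imp Eq.symm id
    have g4 : ∀ k, ∃ x, Sk G m x ∧ cn G m x = k := fun k => by
      obtain ⟨s, s1, s2⟩ := g3.exists_subset_card_eq (k + 1)
      obtain ⟨r, -, h⟩ := cn_ex (G := G) (m := m) (j := k) (s.sup id + 1)
        (Nat.lt_of_succ_le (s2.ge.trans (Finset.card_le_card fun z hz => Finset.mem_filter.2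
          ⟨Finset.mem_range.2 (Nat.lt_succ_of_le (Finset.le_sup (f := id) hz)), s1 hz⟩)))
      exact ⟨r, h⟩
    have g5 : ∀ y, G.Reachable m y →
        ({z | G.Adj y z}.Infinite ↔ Sk G m y ∧ Hub A (cn G m y)) := fun y r => by
      refine ⟨fun h => ?_, fun ⟨h1, h2⟩ => .of_image (cn G m) (((hub_iff A _).1 h2).mono ?_)⟩
      · obtain ⟨x0, r0⟩ := gle_ex r
        have h1 := h.sdiff (finite_Iic (x0 + y))
        have h2 : ∀ x ∈ {z | G.Adj y z} \ Iic (x0 + y), y < x ∧ (Gle G x).Reachable m y :=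
          fun x hx => by
            have : x0 + y < x := not_le.1 hx.2
            exact ⟨by omega, gle_mono (by omega) r0⟩
        have h3 : ∀ x ∈ {z | G.Adj y z} \ Iic (x0 + y), Sk G m x := fun x hx =>
          (gle_mono x.le_succ (h2 x hx).2).trans
            (gle_adj.2 ⟨hx.1, by have := (h2 x hx).1; omega, by omega⟩).reachable
        obtain ⟨x, hx⟩ := h1.nonempty
        refine ⟨(g1 (h2 x hx).1 hx.1.symm (h2 x hx).2).1, (hub_iff A _).2
          ((h1.image fun a ha b hb => cn_inj (h3 a ha) (h3 b hb)).mono ?_)⟩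
        rintro _ ⟨x, hx, rfl⟩
        have := g1 (h2 x hx).1 hx.1.symm (h2 x hx).2
        exact ⟨this.2.2, this.2.1.symm⟩
      · rintro k ⟨k1, k2⟩
        obtain ⟨x, a1, rfl⟩ := g4 k
        exact ⟨x, g2 a1 h1 k1 k2, rfl⟩
    refine ⟨g4, g5, fun y hy => ?_⟩
    have g6 : ∀ z ∈ {z | G.Adj y z ∧ {w | G.Adj z w}.Infinite}, Sk G m z ∧ Hub A (cn G m z) :=
      fun z hz => (g5 z ((sr hy).trans hz.1.reachable)).1 hz.2
    rw [← InjOn.ncard_image (f := cn G m) fun a ha b hb => cn_inj (g6 a ha).1 (g6 b hb).1]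
    congr 1
    ext k
    refine ⟨?_, fun ⟨h1, h2⟩ => ?_⟩
    · rintro ⟨z, hz, rfl⟩
      refine ⟨(g6 z hz).2, ?_⟩
      rcases lt_or_gt_of_ne hz.1.ne with l | l
      · have := g1 l hz.1.symm (gle_mono l hy)
        exact .inl ⟨this.2.2, this.2.1.symm⟩
      · have := g1 l hz.1 (gle_mono l (g6 z hz).1)
        exact .inr ⟨this.2.2, this.2.1.symm⟩
    · obtain ⟨z, a1, rfl⟩ := g4 k
      exact ⟨z, ⟨h2.elim (fun h => g2 a1 hy h.1 h.2) fun h => (g2 hy a1 h.1 h.2).symm,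
        (g5 z (sr a1)).2 ⟨a1, h1⟩⟩, rfl⟩
  have k2 : ∀ y, ¬Fin' G y → (∀ z, G.Reachable (mn G y) z → mn G y ≤ z) ∧ ¬Fin' G (mn G y) :=
    fun y h => ⟨fun z r => mn_le ((mn_reach G y).trans r),
      fun f => h (f.subset fun z r => (mn_reach G y).symm.trans r)⟩
  ext n
  rw [← nb_card A]
  refine ⟨fun ⟨y, h1, h2⟩ => ?_, fun ⟨j, h1, h2⟩ => ?_⟩
  · have h3 := k2 y fun f => h1 (f.subset fun z a => a.reachable)
    obtain ⟨-, a2, a3⟩ := key _ h3.1 h3.2
    have := (a2 y (mn_reach G y).symm).1 h1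
    exact ⟨_, this.2, (a3 y this.1).symm.trans h2⟩
  · obtain ⟨x, hx⟩ := hi
    obtain ⟨a1, a2, a3⟩ := key _ (k2 x hx).1 (k2 x hx).2
    obtain ⟨y, b1, rfl⟩ := a1 j
    exact ⟨y, (a2 y (b1.mono inf_le_left)).2 ⟨b1, h1⟩, (a3 y b1).trans h2⟩

end Pool.Agent.H.MP_5af839_lc
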