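import Mathlib

set_option autoImplicit false

namespace Pool.Agent.H.MP_5af839_lc

open Set Cardinal SimpleGraph

/-- finite positions: the edges asked so far with their colours (`true` = green), latest first -/
abbrev Pos := List (Sym2 ℕ × Bool)

/-- the position after `n` turns when Seeker follows `σ` and Hider follows `τ` -/
def play (σ : Pos → Sym2 ℕ) (τ : Pos → Sym2 ℕ → Bool) : ℕ → Pos
  | 0 => []
  | n + 1 => (σ (play σ τ n), τ (play σ τ n) (σ (play σ τ n))) :: play σ τ n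

/-- Seeker always chooses a white edge -/
def Legal (σ : Pos → Sym2 ℕ) : Prop := ∀ p, ¬(σ p).IsDiag ∧ ∀ b, (σ p, b) ∉ p

/-- green edges at the end of the run -/
def Gr (σ : Pos → Sym2 ℕ) (τ : Pos → Sym2 ℕ → Bool) : Set (Sym2 ℕ) :=
  {e | ∃ n, (e, true) ∈ play σ τ n}

/-- white edges at the end of the run -/
def Wh (σ : Pos → Sym2 ℕ) (τ : Pos → Sym2 ℕ → Bool) : Set (Sym2 ℕ) :=
  {e | ¬e.IsDiag ∧ ∀ n b, (e, b) ∉ play σ τ n}

/-- graphs compatible with the run -/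
def Poss (σ : Pos → Sym2 ℕ) (τ : Pos → Sym2 ℕ → Bool) : Set (SimpleGraph ℕ) :=
  {H | Gr σ τ ⊆ H.edgeSet ∧ H.edgeSet ⊆ Gr σ τ ∪ Wh σ τ}

/-- Seeker wins the run -/
def SWin (S : Set (SimpleGraph ℕ)) (σ : Pos → Sym2 ℕ) (τ : Pos → Sym2 ℕ → Bool) : Prop :=
  (Wh σ τ).Nonempty ∧ (Poss σ τ ⊆ S ∨ Poss σ τ ∩ S = ∅)

variable {σ σ' : Pos → Sym2 ℕ} {τ τ' : Pos → Sym2 ℕ → Bool}

theorem len (n : ℕ) : (play σ τ n).length = n := by
  induction n with
  | zero => rfl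
  | succ n ih => simp [play, ih]

theorem mem_play {n : ℕ} {e : Sym2 ℕ} {b : Bool} :
    (e, b) ∈ play σ τ n ↔ ∃ k < n, e = σ (play σ τ k) ∧ b = τ (play σ τ k) e := by
  induction n with
  | zero => simp [play]
  | succ n ih =>
    simp only [play, List.mem_cons, ih, Prod.mk.injEq, Nat.exists_lt_succ_right]
    exact or_comm.trans (or_congr_right ⟨fun h => ⟨h.1, h.1 ▸ h.2⟩, fun h => ⟨h.1, h.1 ▸ h.2⟩⟩)

theorem play_congr {n : ℕ} (h : ∀ p : Pos, p.length < n → σ p = σ' p ∧ ∀ e, τ p e = τ' p e) :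
    ∀ m ≤ n, play σ τ m = play σ' τ' m
  | 0, _ => rfl
  | m + 1, hm => by
    have := h _ ((len (σ := σ') (τ := τ') m).trans_lt hm)
    simp only [play, play_congr h m (by omega), this.1, this.2]

theorem inj (h : Legal σ) : Function.Injective fun k => σ (play σ τ k) := by
  refine Function.Injective.of_lt_imp_ne fun k n hk e => (h (play σ τ n)).2 _ (mem_play.2
    ⟨k, hk, e.symm, rfl⟩)

theorem fair (h : Legal σ) (ρ : Sym2 ℕ → ℕ) (hρ : ∀ k, {e | ρ e ≤ k}.Finite) (e : Sym2 ℕ) (n0 : ℕ)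
    (h1 : ∀ n ≥ n0, (∀ b, (e, b) ∉ play σ τ n) → ρ (σ (play σ τ n)) ≤ ρ e) :
    ∃ n b, (e, b) ∈ play σ τ n := by
  by_contra h2
  push Not at h2
  exact (Ici_infinite n0).image (inj (τ := τ) h).injOn ((hρ (ρ e)).subset
    (by rintro _ ⟨n, hn, rfl⟩; exact h1 n hn (h2 n)))

def rk : Sym2 ℕ → ℕ := Sym2.lift ⟨max, max_comm⟩

theorem rk_fin (k : ℕ) : {e | rk e ≤ k}.Finite :=
  (((finite_Iic k).prod (finite_Iic k)).image fun p => s(p.1, p.2)).subset <| by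
    rintro ⟨x, y⟩ h
    exact ⟨(x, y), by simpa [rk] using h, rfl⟩

theorem pick (e' : Sym2 ℕ) (F : Pos → Set (Sym2 ℕ)) : ∃ σ, Legal σ ∧ ∀ p, σ p ≠ e' ∧
    ∀ e, ¬e.IsDiag → e ≠ e' → (∀ b, (e, b) ∉ p) →
      rk (σ p) ≤ rk e ∧ (rk e = rk (σ p) → e ∈ F p → σ p ∈ F p) := by
  classical
  suffices ∀ p : Pos, ∃ x : Sym2 ℕ, (¬x.IsDiag ∧ ∀ b, (x, b) ∉ p) ∧ x ≠ e' ∧
      ∀ e, ¬e.IsDiag → e ≠ e' → (∀ b, (e, b) ∉ p) →
        rk x ≤ rk e ∧ (rk e = rk x → e ∈ F p → x ∈ F p) by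
    choose σ h1 h2 using this
    exact ⟨σ, h1, h2⟩
  intro p
  have hi : (range fun n : ℕ => s(0, n + 1)).Infinite :=
    infinite_range_of_injective fun a b h => by simpa using h
  obtain ⟨_, ⟨n, rfl⟩, hn⟩ := hi.exists_notMem_finset (insert e' (p.map Prod.fst).toFinset)
  obtain ⟨x, ⟨h1, h2, h3⟩, h4⟩ := (measure fun e => 2 * rk e + if e ∈ F p then 0 else 1).wf.has_min
    {e | ¬e.IsDiag ∧ e ≠ e' ∧ ∀ b, (e, b) ∉ p} ⟨s(0, n + 1), by simp, by simpa using hn⟩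
  refine ⟨x, ⟨h1, h3⟩, h2, fun e a b c => ?_⟩
  have : ¬(2 * rk e + if e ∈ F p then 0 else 1) < 2 * rk x + if x ∈ F p then 0 else 1 :=
    h4 e ⟨a, b, c⟩
  split_ifs at this <;> simp [*] <;> omega

theorem select {ι X : Type} (hι : #ι ≤ 𝔠) (P : ι → X → Prop) (R : X → X → Prop)
    (hR : ∀ x y, R x y → R y x) (h : ∀ i (D : Set X), #D < 𝔠 → ∃ x, P i x ∧ ∀ y ∈ D, R x y) :
    ∃ f : ι → X, (∀ i, P i (f i)) ∧ ∀ i j, i ≠ j → R (f i) (f j) := by
  obtain ⟨g⟩ : Nonempty (ι ↪ (𝔠 : Cardinal.{0}).ord.ToType) := by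
    rw [← Cardinal.le_def]; simpa using hι
  have hs : ∀ i, ∀ F : {j // g j < g i} → X, #(range F) < 𝔠 := fun i F =>
    mk_range_le.trans_lt ((mk_le_of_injective (f := fun j : {j // g j < g i} =>
      (⟨g j, j.2⟩ : Iio (g i))) fun a b e => Subtype.ext (g.2 (congrArg Subtype.val e))).trans_lt
        ((mk_Iio_lt (g i) (by simp)).trans_eq (by simp)))
  choose c h1 h2 using h
  let f : ι → X := (InvImage.wf g wellFounded_lt).fix fun i F => c i _ (hs i fun j => F j j.2)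
  have e : ∀ i, f i = c i _ (hs i fun j => f j) := fun i => WellFounded.fix_eq _ _ _
  have k : ∀ i j, g j < g i → R (f i) (f j) := fun i j l => by
    rw [e i]; exact h2 _ _ _ _ ⟨⟨j, l⟩, rfl⟩
  refine ⟨f, fun i => e i ▸ h1 _ _ _, fun i j hne => ?_⟩
  rcases lt_or_gt_of_ne (g.2.ne hne) with l | l
  exacts [hR _ _ (k j i l), k i j l]

def Dif (G K : SimpleGraph ℕ) : Set (ℕ × ℕ) := {p | ¬(G.Adj p.1 p.2 ↔ K.Adj p.1 p.2)}

def App (G K : SimpleGraph ℕ) : Prop := ∃ φ : ℕ ≃ ℕ, (Dif G (K.comap φ)).Finite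

def Sim (G K : SimpleGraph ℕ) : Prop := ∃ φ : ℕ ≃ ℕ, (Dif G (K.comap φ)).Finite ∧
  ∀ x y, G.Reachable x y ↔ K.Reachable (φ x) (φ y)

theorem dif_trans {G K L : SimpleGraph ℕ} {φ ψ : ℕ ≃ ℕ} (h1 : (Dif G (K.comap φ)).Finite)
    (h2 : (Dif K (L.comap ψ)).Finite) : (Dif G (L.comap (φ.trans ψ))).Finite :=
  (h1.union (h2.preimage (φ.prodCongr φ).injective.injOn)).subset fun p hp => by
    simp only [Dif, mem_union, mem_preimage, mem_ofPred_eq] at hp ⊢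
    by_contra h
    push Not at h
    exact hp (h.1.trans h.2)

theorem App.trans {G K L : SimpleGraph ℕ} : App G K → App K L → App G L :=
  fun ⟨_, h1⟩ ⟨_, h2⟩ => ⟨_, dif_trans h1 h2⟩

theorem Sim.trans {G K L : SimpleGraph ℕ} : Sim G K → Sim K L → Sim G L :=
  fun ⟨_, h1, h3⟩ ⟨_, h2, h4⟩ => ⟨_, dif_trans h1 h2, fun x y => (h3 x y).trans (h4 _ _)⟩

theorem App.symm {G K : SimpleGraph ℕ} : App G K → App K G := fun ⟨φ, h⟩ =>
  ⟨φ.symm, (h.preimage (φ.symm.prodCongr φ.symm).injective.injOn).subset fun p hp => by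
    simpa [Dif, iff_comm] using hp⟩

theorem cnt (I : SimpleGraph ℕ → Set ℕ) (hI : ∀ G (φ : ℕ ≃ ℕ), I (G.comap φ) = I G)
    (G : Set ℕ → SimpleGraph ℕ) (hG : ∀ A, (symmDiff (I (G A)) A).Finite) (K : SimpleGraph ℕ) :
    {A | App K (G A)}.Countable := by
  have : ∀ A, ∃ φ : ℕ ≃ ℕ, App K (G A) → (Dif K ((G A).comap φ)).Finite := fun A => by
    by_cases h : App K (G A)
    exacts [h.imp fun _ h _ => h, ⟨1, fun h' => absurd h' h⟩]
  choose φ h using this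
  refine MapsTo.countable_of_injOn
    (f := fun A => (Dif K ((G A).comap (φ A)), symmDiff (I (G A)) A))
    (t := {s : Set (ℕ × ℕ) | s.Finite} ×ˢ {s : Set ℕ | s.Finite})
    (fun A hA => mk_mem_prod (h A hA) (hG A)) (fun A _ B _ e => ?_)
    (Countable.ofPred_finite.prod Countable.ofPred_finite)
  obtain ⟨e1, e2⟩ := Prod.mk.inj e
  have e3 : (G A).comap (φ A) = (G B).comap (φ B) := by
    ext x y
    have := Set.ext_iff.1 e1 (x, y)
    simp only [Dif, mem_ofPred_eq, not_iff_not] at this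
    by_cases h : K.Adj x y
    · simpa only [h, true_iff] using this
    · simpa only [h, false_iff, not_iff_not] using this
  have e4 : I (G A) = I (G B) := by rw [← hI _ (φ A), e3, hI]
  rw [e4] at e2
  exact symmDiff_right_injective _ e2

theorem avoid (I : SimpleGraph ℕ → Set ℕ) (hI : ∀ G (φ : ℕ ≃ ℕ), I (G.comap φ) = I G)
    (G : Set ℕ → SimpleGraph ℕ) (hG : ∀ A, (symmDiff (I (G A)) A).Finite)
    (D : Set (SimpleGraph ℕ)) (hD : #D < 𝔠) : ∃ A, ∀ K ∈ D, ¬App (G A) K := by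
  by_contra h
  push Not at h
  have : (univ : Set (Set ℕ)) ⊆ ⋃ K ∈ D, {A | App K (G A)} := fun A _ => by
    obtain ⟨K, h1, h2⟩ := h A
    exact mem_iUnion₂.2 ⟨K, h1, h2.symm⟩
  have h2 := (mk_le_mk_of_subset this).trans (mk_biUnion_le (fun K => {A | App K (G A)}) D)
  rw [mk_univ, mk_set_nat] at h2
  have h3 : ⨆ K : D, #{A | App K.1 (G A)} ≤ ℵ₀ :=
    ciSup_le' fun K => le_aleph0_iff_set_countable.2 (cnt I hI G hG K.1)
  exact h2.not_gt (mul_lt_of_lt aleph0_le_continuum hD (h3.trans_lt aleph0_lt_continuum))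

def Gp (p : Pos) : SimpleGraph ℕ := fromEdgeSet {e | (e, true) ∈ p}

def Safe (p : Pos) : Prop := ∀ u v, u ≠ v → (Gp p).Reachable u v → ∃ b, (s(u, v), b) ∈ p

def Fin' (G : SimpleGraph ℕ) (x : ℕ) : Prop := {y | G.Reachable x y}.Finite

theorem play_mono {m n : ℕ} (h : m ≤ n) {z : Sym2 ℕ × Bool} (hz : z ∈ play σ τ m) :
    z ∈ play σ τ n :=
  let ⟨k, a, b⟩ := mem_play.1 hz; mem_play.2 ⟨k, by omega, b⟩

theorem reach_ind {G : SimpleGraph ℕ} {u : ℕ} {Q : ℕ → Prop} (h0 : Q u)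
    (h : ∀ w w', Q w → G.Adj w w' → Q w') {v : ℕ} (hv : G.Reachable u v) : Q v := by
  rw [reachable_iff_reflTransGen] at hv
  induction hv with
  | refl => exact h0
  | tail _ a ih => exact h _ _ ih a

theorem reach_edge {G H : SimpleGraph ℕ} {x y : ℕ}
    (h : ∀ a b, H.Adj a b → G.Adj a b ∨ s(a, b) = s(x, y)) {u v : ℕ} (hv : H.Reachable u v) :
    G.Reachable u v ∨ G.Reachable u x ∧ G.Reachable y v ∨ G.Reachable u y ∧ G.Reachable x v := by
  refine reach_ind (Q := fun v => G.Reachable u v ∨ G.Reachable u x ∧ G.Reachable y v ∨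
    G.Reachable u y ∧ G.Reachable x v) (.inl .rfl) (fun w w' h1 a => ?_) hv
  rcases h _ _ a with a | a
  · exact h1.imp (·.trans a.reachable) (Or.imp (And.imp_right (·.trans a.reachable))
      (And.imp_right (·.trans a.reachable)))
  · rcases Sym2.eq_iff.1 a with ⟨rfl, rfl⟩ | ⟨rfl, rfl⟩
    · rcases h1 with h1 | h1 | h1
      exacts [.inr (.inl ⟨h1, .rfl⟩), .inr (.inl ⟨h1.1, .rfl⟩), .inl h1.1]
    · rcases h1 with h1 | h1 | h1
      exacts [.inr (.inr ⟨h1, .rfl⟩), .inl h1.1, .inr (.inr ⟨h1.1, .rfl⟩)]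

end Pool.Agent.H.MP_5af839_lc
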