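import Pool.Agent.H.MP_5af839_lc.A

set_option autoImplicit false

namespace Pool.Agent.H.MP_5af839_lc

open Set SimpleGraph

def Zs (G : SimpleGraph ℕ) : Set ℕ := {n | ∃ x, Fin' G x ∧ {y | G.Reachable x y}.ncard = n}

theorem comp_img {G K : SimpleGraph ℕ} {φ : ℕ ≃ ℕ}
    (h : ∀ x y, G.Reachable x y ↔ K.Reachable (φ x) (φ y)) (x : ℕ) :
    (Fin' K (φ x) ↔ Fin' G x) ∧ {y | K.Reachable (φ x) y}.ncard = {y | G.Reachable x y}.ncard := by
  have : {y | K.Reachable (φ x) y} = φ '' {y | G.Reachable x y} := by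
    ext y
    obtain ⟨y, rfl⟩ := φ.surjective y
    simp [h]
  rw [Fin', this]
  exact ⟨finite_image_iff φ.injective.injOn, ncard_image_of_injective _ φ.injective⟩

theorem comap_reach (G : SimpleGraph ℕ) (φ : ℕ ≃ ℕ) (x y : ℕ) :
    (G.comap φ).Reachable x y ↔ G.Reachable (φ x) (φ y) :=
  (Iso.reachable_iff (φ := Iso.comap φ G)).symm

theorem Zs_comap (G : SimpleGraph ℕ) (φ : ℕ ≃ ℕ) : Zs (G.comap φ) = Zs G := by
  ext n
  exact φ.exists_congr fun x => by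
    rw [(comp_img (comap_reach G φ) x).1, (comp_img (comap_reach G φ) x).2]

theorem allask {σ : Pos → Sym2 ℕ} (h : ∀ τ n e, ¬e.IsDiag → Safe (play σ τ n) → ∃ τ' n', n ≤ n' ∧
    (∀ p e, p.length < n → τ' p e = τ p e) ∧ Safe (play σ τ' n') ∧ ∃ b, (e, b) ∈ play σ τ' n') :
    ∃ τ, Wh σ τ = ∅ := by
  have step : ∀ (x : {x : (Pos → Sym2 ℕ → Bool) × ℕ // Safe (play σ x.1 x.2)}) (e : Sym2 ℕ),
      ∃ y : {x : (Pos → Sym2 ℕ → Bool) × ℕ // Safe (play σ x.1 x.2)}, x.1.2 < y.1.2 ∧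
        (∀ p e, p.length < x.1.2 → y.1.1 p e = x.1.1 p e) ∧
        (¬e.IsDiag → ∃ b, (e, b) ∈ play σ y.1.1 y.1.2) := by
    rintro ⟨⟨τ, n⟩, hs⟩ e
    let τ1 : Pos → Sym2 ℕ → Bool := fun p e => if p.length < n then τ p e else false
    have e1 : play σ τ1 n = play σ τ n :=
      play_congr (fun p hp => ⟨rfl, fun e => if_pos hp⟩) n le_rfl
    have s1 : Safe (play σ τ1 (n + 1)) := fun u v h1 h2 => by
      have : Gp (play σ τ1 (n + 1)) = Gp (play σ τ n) := by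
        have : ∀ e, τ1 (play σ τ n) e = false := fun e => if_neg (by simp [len])
        simp [Gp, play, e1, this]
      obtain ⟨b, hb⟩ := hs u v h1 (this ▸ h2)
      exact ⟨b, play_mono n.le_succ (e1 ▸ hb)⟩
    by_cases d : e.IsDiag
    · exact ⟨⟨(τ1, n + 1), s1⟩, n.lt_succ_self, fun p e hp => if_pos hp, fun h => absurd d h⟩
    obtain ⟨τ', n', a1, a2, a3, a4⟩ := h τ1 (n + 1) e d s1
    exact ⟨⟨(τ', n'), a3⟩, a1, fun p e hp => (a2 p e (hp.trans n.lt_succ_self)).trans (if_pos hp),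
      fun _ => a4⟩
  choose st h1 h2 h3 using step
  obtain ⟨en, hen⟩ := exists_surjective_nat (Sym2 ℕ)
  let s : ℕ → {x : (Pos → Sym2 ℕ → Bool) × ℕ // Safe (play σ x.1 x.2)} := fun k =>
    Nat.rec ⟨(fun _ _ => false, 0), fun u v h1 h2 => by simp [Gp, play, h1] at h2⟩
      (fun k x => st x (en k)) k
  have m1 : StrictMono fun k => (s k).1.2 := strictMono_nat_of_lt_succ fun k => h1 _ _
  have ag : ∀ j k, j ≤ k → ∀ p e, p.length < (s j).1.2 → (s k).1.1 p e = (s j).1.1 p e := by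
    intro j k h p e hp
    induction k, h using Nat.le_induction with
    | base => rfl
    | succ k h ih => exact (h2 (s k) (en k) p e (hp.trans_le (m1.monotone h))).trans ih
  refine ⟨fun p e => (s (p.length + 1)).1.1 p e, eq_empty_of_forall_notMem fun e he => ?_⟩
  obtain ⟨k, rfl⟩ := hen e
  obtain ⟨b, hb⟩ := h3 (s k) (en k) he.1
  refine he.2 (s (k + 1)).1.2 b (play_congr (fun p hp => ⟨rfl, fun e => ?_⟩) _ le_rfl ▸ hb)
  rcases le_total (k + 1) (p.length + 1) with l | l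
  exacts [(ag _ _ l p e hp).symm, ag _ _ l p e (m1.le_apply (x := p.length + 1))]

theorem seekB {σ : Pos → Sym2 ℕ} (hσ : Legal σ) : (∃ τ, Wh σ τ = ∅) ∨ ∀ A : Set ℕ, ∃ H,
    (symmDiff (Zs H) A).Finite ∧ (∃ x, ¬Fin' H x) ∧
      ∃ τ H', H ∈ Poss σ τ ∧ H' ∈ Poss σ τ ∧ App H H' ∧ ¬Sim H H' := by
  classical
  refine or_iff_not_imp_left.2 fun h0 A => ?_
  have h := mt allask h0
  push Not at h
  obtain ⟨τ0, n0, ⟨u, v⟩, huv, hs, h⟩ := h
  replace huv : u ≠ v := by simpa using huv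
  obtain ⟨M0, hM0⟩ := ((List.finite_toSet (s(u, v) :: (play σ τ0 n0).map Prod.fst)).image rk).bddAbove
  obtain ⟨M, hM, hu, hv⟩ : ∃ M, (∀ x y b, (s(x, y), b) ∈ play σ τ0 n0 → x < M ∧ y < M) ∧
      u < M ∧ v < M := by
    refine ⟨M0 + 1, fun x y b h => ?_, ?_⟩
    · simpa [rk, Nat.lt_succ_iff] using hM0 ⟨s(x, y), .tail _ (List.mem_map.2 ⟨_, h, rfl⟩), rfl⟩
    · simpa [rk, Nat.lt_succ_iff] using hM0 ⟨s(u, v), .head _, rfl⟩
  let β : ℕ → Option ℕ := fun x => if (x - M).unpair.2 ∈ A ∧ (x - M).unpair.1 < (x - M).unpair.2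
    then some (x - M).unpair.2 else none
  let Bm : ℕ → ℕ → Prop := fun x y => M ≤ x ∧ M ≤ y ∧ β x = β y
  have Bs : ∀ {x y x' y'}, s(x, y) = s(x', y') → Bm x' y' → Bm x y := fun e h => by
    rcases Sym2.eq_iff.1 e with ⟨rfl, rfl⟩ | ⟨rfl, rfl⟩
    exacts [h, ⟨h.2.1, h.1, h.2.2.symm⟩]
  let rule : Pos → Sym2 ℕ → Prop := fun p e => ∃ x y, e = s(x, y) ∧ Bm x y ∧ ∀ x' y',
    (Gp p).Reachable x x' → (Gp p).Reachable y y' → s(x', y') ≠ e → ∃ b, (s(x', y'), b) ∈ p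
  let τ : Pos → Sym2 ℕ → Bool := fun p e => if p.length < n0 then τ0 p e else decide (rule p e)
  have e0 : play σ τ n0 = play σ τ0 n0 :=
    play_congr (fun p hp => ⟨rfl, fun e => if_pos hp⟩) _ le_rfl
  have tr : ∀ k, n0 ≤ k → ∀ e, τ (play σ τ k) e = true ↔ rule (play σ τ k) e := fun k hk e => by
    simp only [τ, len, if_neg hk.not_gt, decide_eq_true_iff]
  have sf : ∀ n, n0 ≤ n → Safe (play σ τ n) := fun n hn => by
    induction n, hn using Nat.le_induction with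
    | base => exact e0 ▸ hs
    | succ n hn ih =>
      intro a b hab hr
      by_cases c : τ (play σ τ n) (σ (play σ τ n)) = true
      · obtain ⟨x, y, c1, -, c2⟩ := (tr n hn _).1 c
        by_cases d : s(a, b) = σ (play σ τ n)
        · exact ⟨_, mem_play.2 ⟨n, n.lt_succ_self, d, rfl⟩⟩
        refine Exists.imp (fun _ => play_mono n.le_succ) ?_
        rcases reach_edge (G := Gp (play σ τ n)) (x := x) (y := y) (fun a b h => by
          simp only [Gp, play, fromEdgeSet_adj, mem_ofPred_eq, List.mem_cons, Prod.mk.injEq] at h ⊢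
          exact h.1.symm.imp (⟨·, h.2⟩) (·.1.trans c1)) hr with r | r | r
        exacts [ih a b hab r, c2 _ _ r.1.symm r.2 d,
          Sym2.eq_swap ▸ c2 _ _ r.2 r.1.symm (Sym2.eq_swap ▸ d)]
      · have : Gp (play σ τ (n + 1)) = Gp (play σ τ n) := by simp [Gp, play, c]
        exact (ih a b hab (this ▸ hr)).imp fun _ => play_mono n.le_succ
  have we : s(u, v) ∈ Wh σ τ := ⟨by simpa, fun n b hb => h τ (max n n0) (le_max_right _ _)
    (fun p e hp => if_pos hp) (sf _ (le_max_right _ _)) b (play_mono (le_max_left _ _) hb)⟩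
  have gd : ∀ e ∈ Gr σ τ, ¬e.IsDiag := fun e ⟨n, he⟩ => by
    obtain ⟨k, -, rfl, -⟩ := mem_play.1 he
    exact (hσ _).1
  set H := fromEdgeSet (Gr σ τ ∪ {f ∈ Wh σ τ | ∃ x y, f = s(x, y) ∧ Bm x y}) with hH
  have le1 : ∀ n, Gp (play σ τ n) ≤ H := fun n => fromEdgeSet_mono fun e he => .inl ⟨n, he⟩
  have hB : ∀ x y, H.Adj x y → (y < M ∧ x < M ∧ (Gp (play σ τ0 n0)).Adj x y) ∨ Bm x y := by
    rintro x y ⟨⟨n, h1⟩ | ⟨-, x', y', h1, h2⟩, h3⟩
    · obtain ⟨k, -, h1, h2⟩ := mem_play.1 h1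
      rcases lt_or_ge k n0 with l | l
      · have := e0 ▸ mem_play.2 ⟨k, l, h1, h2⟩
        exact .inl ⟨(hM _ _ _ this).2, (hM _ _ _ this).1, this, h3⟩
      · obtain ⟨x', y', h1, h2, -⟩ := (tr k l _).1 h2.symm
        exact .inr (Bs h1 h2)
    · exact .inr (Bs h1 h2)
  have c1 : ∀ {x y}, x < M → H.Reachable x y → y < M ∧ (Gp (play σ τ0 n0)).Reachable x y :=
    fun {x y} hx => reach_ind (Q := fun y => y < M ∧ (Gp (play σ τ0 n0)).Reachable x y) ⟨hx, .rfl⟩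
      fun w w' h1 h2 => (hB _ _ h2).elim (fun h => ⟨h.1, h1.2.trans h.2.2.reachable⟩)
        fun h => absurd h.1 h1.1.not_ge
  have c2 : ∀ {x y}, M ≤ x → H.Reachable x y → Bm x y := fun {x y} hx =>
    reach_ind (Q := Bm x) ⟨hx, hx, rfl⟩ fun w w' h1 h2 => (hB _ _ h2).elim
      (fun h => absurd h1.2.1 h.2.1.not_ge) fun h => ⟨hx, h.2.1, h1.2.2.trans h.2.2⟩
  have star : ∀ {x y}, Bm x y → Fin' H x → Fin' H y → H.Reachable x y := by
    intro x y hb hx hy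
    by_contra hn
    have na : ∀ {x' y'}, H.Reachable x x' → H.Reachable y y' → ¬H.Reachable x' y' :=
      fun a b c => hn (a.trans (c.trans b.symm))
    have bm : ∀ {x' y'}, H.Reachable x x' → H.Reachable y y' → Bm x' y' := fun a b =>
      ⟨(c2 hb.1 a).2.1, (c2 hb.2.1 b).2.1, (c2 hb.1 a).2.2.symm.trans (hb.2.2.trans (c2 hb.2.1 b).2.2)⟩
    have : ∀ q ∈ {y | H.Reachable x y} ×ˢ {z | H.Reachable y z},
        ∃ k, s(q.1, q.2) = σ (play σ τ k) := fun q hq => by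
      have ne : q.1 ≠ q.2 := fun e => na hq.1 hq.2 (e ▸ .rfl)
      by_contra h
      refine na hq.1 hq.2 (Adj.reachable ⟨.inr ⟨⟨by simpa, fun n b hb => ?_⟩, _, _, rfl,
        bm hq.1 hq.2⟩, ne⟩)
      obtain ⟨k, -, h1, -⟩ := mem_play.1 hb
      exact h ⟨k, h1⟩
    choose! t ht using this
    obtain ⟨q, hq, hm⟩ := exists_max_image _ t (hx.prod hy) ⟨(x, y), .rfl, .rfl⟩
    have l : n0 ≤ t q := not_lt.1 fun l =>
      (hM _ _ _ (e0 ▸ mem_play.2 ⟨_, l, ht q hq, rfl⟩)).1.not_ge (bm hq.1 hq.2).1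
    refine na hq.1 hq.2 (Adj.reachable ⟨.inl ⟨t q + 1, mem_play.2 ⟨_, Nat.lt_succ_self _, ht q hq,
      ((tr _ l _).2 ⟨_, _, rfl, bm hq.1 hq.2, fun x' y' a b c => ?_⟩).symm⟩⟩,
      fun e => na hq.1 hq.2 (e ▸ .rfl)⟩)
    have hq' : (x', y') ∈ {y | H.Reachable x y} ×ˢ {z | H.Reachable y z} :=
      ⟨hq.1.trans (a.mono (le1 _)), hq.2.trans (b.mono (le1 _))⟩
    exact ⟨_, mem_play.2 ⟨_, (hm _ hq').lt_of_ne fun e => c (by rw [ht _ hq', ht _ hq, e]),
      ht _ hq', rfl⟩⟩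
  have fib : ∀ n ∈ A, {y | M ≤ y ∧ β y = some n} = (fun i => M + Nat.pair i n) '' Iio n := by
    intro n hn
    ext y
    refine ⟨fun ⟨h1, h2⟩ => ?_, ?_⟩
    · simp only [β] at h2
      split_ifs at h2 with h3
      cases h2
      exact ⟨_, h3.2, by simp [h1]⟩
    · rintro ⟨i, hi, rfl⟩
      simpa [β, hn] using hi
  have bA : ∀ x n, β x = some n → n ∈ A := fun x n h => by
    simp only [β] at h
    split_ifs at h with h3
    cases h
    exact h3.1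
  have c3 : ∀ x n, M ≤ x → β x = some n → Fin' H x ∧ {y | H.Reachable x y}.ncard = n := by
    intro x n h1 h2
    have f : ∀ x, M ≤ x → β x = some n → Fin' H x := fun x h1 h2 =>
      (fib n (bA x n h2) ▸ (finite_Iio n).image _).subset fun y hy =>
        ⟨(c2 h1 hy).2.1, (c2 h1 hy).2.2.symm.trans h2⟩
    refine ⟨f x h1 h2, ?_⟩
    rw [show {y | H.Reachable x y} = {y | M ≤ y ∧ β y = some n} from Set.ext fun y =>
      ⟨fun hy => ⟨(c2 h1 hy).2.1, (c2 h1 hy).2.2.symm.trans h2⟩, fun hy =>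
        star ⟨h1, hy.1, h2.trans hy.2.symm⟩ (f x h1 h2) (f y hy.1 hy.2)⟩, fib n (bA x n h2),
      ncard_image_of_injective _ fun a b e => by simpa using e]
    simp
  have N0 : {x | M ≤ x ∧ β x = none ∧ Fin' H x}.Finite := by
    rcases {x | M ≤ x ∧ β x = none ∧ Fin' H x}.eq_empty_or_nonempty with e | ⟨x, h1, h2, h3⟩
    · simp [e]
    · exact h3.subset fun y hy => star ⟨h1, hy.1, h2.trans hy.2.1.symm⟩ h3 hy.2.2
  have le2 : H ≤ H ⊔ edge u v := le_sup_left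
  refine ⟨H, ((((finite_Iio M).union N0).image fun x => {y | H.Reachable x y}.ncard).insert 0).subset
    ?_, ?_, τ, H ⊔ edge u v, ⟨fun e he => ?_, fun e he => ?_⟩, ⟨fun e he => ?_, fun e he => ?_⟩,
    ⟨1, (toFinite {(u, v), (v, u)}).subset fun q hq => ?_⟩, fun ⟨φ, _, hφ⟩ => ?_⟩
  · rintro n (⟨⟨x, h1, rfl⟩, h2⟩ | ⟨h1, h2⟩)
    · refine .inr ⟨x, (lt_or_ge x M).imp id fun l => ⟨l, ?_, h1⟩, rfl⟩
      rcases e : β x with _ | n
      exacts [rfl, absurd ((c3 x n l e).2.symm ▸ bA x n e) h2]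
    · refine .inl (by_contra fun h => h2 ⟨M + Nat.pair 0 n, c3 _ _ (by omega) ?_⟩)
      simpa [β, h1, pos_iff_ne_zero] using h
  · obtain ⟨_, ⟨i, rfl⟩, h⟩ := (infinite_range_of_injective (f := fun i => M + Nat.pair i 0)
      fun a b e => by simpa using e).exists_notMem_finite N0
    exact ⟨_, fun h' => h ⟨Nat.le_add_right _ _, by simp [β], h'⟩⟩
  · exact edgeSet_fromEdgeSet _ ▸ ⟨.inl he, gd e he⟩
  · exact ((edgeSet_fromEdgeSet _ ▸ he : e ∈ _ \ _).1).imp id And.left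
  · exact edgeSet_mono le2 (edgeSet_fromEdgeSet _ ▸ ⟨.inl he, gd e he⟩)
  · rw [edgeSet_sup, edgeSet_edge_of_ne huv] at he
    rcases he with he | rfl
    exacts [((edgeSet_fromEdgeSet _ ▸ he : e ∈ _ \ _).1).imp id And.left, .inr we]
  · simp only [Dif, mem_ofPred_eq, comap_adj, Equiv.Perm.coe_one, id, sup_adj, edge_adj] at hq
    simp only [mem_insert_iff, mem_singleton_iff, Prod.ext_iff]
    tauto
  obtain ⟨t, ht⟩ : ∃ t, {y | H.Reachable u y}.ncard = t := ⟨_, rfl⟩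
  have fu : Fin' H u := (finite_Iio M).subset fun y hy => (c1 hu hy).1
  have T1 : {x | Fin' H x ∧ {y | H.Reachable x y}.ncard ≤ t}.Finite :=
    (((finite_Iio M).union N0).union (((finite_Iic t).prod (finite_Iic t)).image
      fun q => M + Nat.pair q.1 q.2)).subset fun x hx => by
      rcases lt_or_ge x M with l | l
      · exact .inl (.inl l)
      rcases e : β x with _ | n
      · exact .inl (.inr ⟨l, e, hx.1⟩)
      obtain ⟨i, hi, rfl⟩ := (fib n (bA x n e)).subset ⟨l, e⟩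
      have := (c3 _ n l e).2 ▸ hx.2
      exact .inr ⟨(i, n), ⟨hi.le.trans this, this⟩, rfl⟩
  have T2 : φ '' {x | Fin' H x ∧ {y | H.Reachable x y}.ncard ≤ t} =
      {x | Fin' (H ⊔ edge u v) x ∧ {y | (H ⊔ edge u v).Reachable x y}.ncard ≤ t} := by
    ext x
    obtain ⟨x, rfl⟩ := φ.surjective x
    simp [(comp_img hφ x).1, (comp_img hφ x).2]
  have sb : ∀ x, {y | H.Reachable x y} ⊆ {y | (H ⊔ edge u v).Reachable x y} :=
    fun x y hy => hy.mono le2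
  refine (ncard_lt_ncard (s := φ '' _) ?_ T1).ne (ncard_image_of_injective _ φ.injective)
  rw [T2]
  refine ⟨fun x hx => ⟨hx.1.subset (sb x), (ncard_le_ncard (sb x) hx.1).trans hx.2⟩, fun h' => ?_⟩
  obtain ⟨h1, h2⟩ := h' ⟨fu, ht.le⟩
  refine (ht ▸ ncard_lt_ncard ⟨sb u, fun h3 => ?_⟩ h1).not_ge h2
  obtain ⟨b, hb⟩ := hs u v huv (c1 hu (h3 (Adj.reachable (.inr ((edge_adj ..).2
    ⟨.inl ⟨rfl, rfl⟩, huv⟩))))).2
  exact we.2 n0 b (e0 ▸ hb)

end Pool.Agent.H.MP_5af839_lc
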